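import Mathlib
import Pool.Agent.Helper43.Gx.Goals

/-!
# X6 (glue): a run with a linear end, followed by patterns
-/

set_option autoImplicit false

namespace Pool.Agent.Helper43.Gx.PkX6

open Finset Pool.Agent.Lead.Sh
open Pool.Agent.Helper43.Gm (st mv nn SS Run Pri)
open Pool.Agent.Helper43.Gm.PkE (KK ek ex)
open Pool.Agent.Helper43.Ah (pat Good Pi' sl vv exU sl_nonneg pr_pos Pi_sub_ge)
open Helper18.Cusp (Concl Red kap rr)

theorem Pi_nonneg (R j : ℕ) : 0 ≤ Pi' R j := by
  unfold Pi'
  exact sum_nonneg fun t _ => (pr_pos t).le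

theorem Pi_le (R : ℕ) {j j' : ℕ} (h : j ≤ j') : Pi' R j ≤ Pi' R j' := by
  rcases Nat.lt_or_ge j j' with h1 | h1
  · have := Pi_sub_ge (R := R) h1
    have h2 := pr_pos (R := R) j
    linarith
  · rw [show j = j' by omega]

theorem goalX6 : GoalX6 := by
  intro R J μ K n ν i z n1 π1 ε1 s hμ hJ hP hlin hlow hν hiz
  have hsl : ∀ c < n, 0 ≤ sl μ (i c) (z c) := fun c hc => sl_nonneg (hiz c hc)
  set E : ℤ := ∑ c ∈ range n, sl μ (i c) (z c) with hE
  have hEc : ∀ c < n, sl μ (i c) (z c) ≤ E := fun c hc =>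
    single_le_sum (f := fun c => sl μ (i c) (z c)) (fun c hc => hsl c (mem_range.1 hc))
      (mem_range.2 hc)
  have hE0 : 0 ≤ E := sum_nonneg fun c hc => hsl c (mem_range.1 hc)
  set L : ℤ := E * R + 1 with hL
  have hL0 : 0 < L := by positivity
  set Λ : ℤ := Pi' μ μ + L + 1 with hΛ
  have hB0 := Pi_nonneg μ μ
  have hΛ0 : 0 < Λ := by linarith
  refine ⟨fun y => Λ * π1 y + (if y < J then -L else Pi' μ (y - J)),
    fun c => if c < K then Λ * ε1 c else Λ * s + sl μ (i (c - K)) (z (c - K)), ?_⟩
  intro c hc y hy hpos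
  dsimp only at hpos ⊢
  by_cases hcK : c < K
  · rw [if_pos hcK] at hpos ⊢
    obtain ⟨U, hU1, hU2, hU3⟩ := hP c hcK y hy hpos
    refine ⟨U, hU1, hU2, fun y' hy' hyU hne => ?_⟩
    rw [if_pos hcK]
    have h1 := hU3 y' hy' hyU hne
    have h2 : Λ * (π1 y' - ε1 c * y') + Λ ≤ Λ * (π1 y - ε1 c * y) := by
      have h3 : (π1 y' - ε1 c * y') + 1 ≤ π1 y - ε1 c * y := h1
      nlinarith
    have h4 : (if y' < J then -L else Pi' μ (y' - J)) ≤ Pi' μ μ := by
      split_ifs
      · linarith
      · exact Pi_le μ (by omega)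
    have h5 : -L ≤ (if y < J then -L else Pi' μ (y - J)) := by
      split_ifs
      · exact le_rfl
      · have := Pi_nonneg μ (y - J)
        linarith
    linarith
  · rw [if_neg hcK] at hpos ⊢
    by_cases hyJ : y < J
    · rw [if_pos hyJ] at hpos
      exact absurd hpos (lt_irrefl _)
    rw [if_neg hyJ] at hpos ⊢
    obtain ⟨j, rfl⟩ : ∃ j, y = J + j := ⟨y - J, by omega⟩
    obtain ⟨c', rfl⟩ : ∃ c', c = K + c' := ⟨c - K, by omega⟩
    have hc' : c' < n := by omega
    have e1 : K + c' - K = c' := by omega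
    have e2 : J + j - J = j := by omega
    rw [e1, e2] at hpos ⊢
    obtain ⟨U, hU1, hU2, hU3, hU4⟩ := exU (hiz c' hc')
      (show z c' ≤ μ by have := hiz c' hc'; omega) (show j < μ by omega) hpos
    refine ⟨U.image (fun u => J + u), ?_, ?_, fun y' hy' hyU hne => ?_⟩
    · intro h
      rw [mem_image] at h
      obtain ⟨u, hu, he⟩ := h
      apply hU2
      rw [show j = u by omega]
      exact hu
    · rw [hν c' hc']
      exact le_trans (Nat.add_le_add_right card_image_le _) hU3
    · rw [if_neg hcK, if_neg (show ¬ J + j < J by omega)]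
      have hπ := hlin (J + j) (by omega) hy
      push_cast at hπ
      by_cases hy'J : y' < J
      · rw [if_pos hy'J]
        have h1 := hlow y' hy'J
        have h2 := hsl c' hc'
        have h3 := hEc c' hc'
        have h4 := Pi_nonneg μ j
        have h5 : Λ * (π1 y' + s * (J - y')) ≤ Λ * π1 J := mul_le_mul_of_nonneg_left h1 hΛ0.le
        have h6 : ((J + j : ℕ) : ℤ) - y' ≤ R := by
          have : J + j < R := hy
          have h7 : ((J + j : ℕ) : ℤ) < R := by exact_mod_cast this
          have h8 : (0 : ℤ) ≤ y' := by positivity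
          linarith
        have h7 : 0 ≤ ((J + j : ℕ) : ℤ) - y' := by
          have : y' ≤ J + j := by omega
          have h8 : (y' : ℤ) ≤ ((J + j : ℕ) : ℤ) := by exact_mod_cast this
          linarith
        have h8 : sl μ (i c') (z c') * (((J + j : ℕ) : ℤ) - y') ≤ E * R :=
          mul_le_mul h3 h6 h7 hE0
        rw [hπ]
        push_cast at h8 ⊢
        nlinarith
      · rw [if_neg hy'J]
        obtain ⟨j', rfl⟩ : ∃ j', y' = J + j' := ⟨y' - J, by omega⟩
        have e3 : J + j' - J = j' := by omega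
        rw [e3]
        have hπ' := hlin (J + j') (by omega) hy'
        push_cast at hπ'
        have h1 := hU4 j' (by omega) (by
          intro h
          apply hyU
          rw [mem_image]
          exact ⟨_, h, rfl⟩) (by omega)
        unfold vv at h1
        rw [hπ, hπ']
        push_cast
        nlinarith

end Pool.Agent.Helper43.Gx.PkX6
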